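import Mathlib
import Pool.Agent.R344.RL.I
import Pool.Agent.H723R2.LSWWander
import Pool.Agent.N219.MB.Pow

/-!
# Wandering domains of `f₀` and the reciprocal masses of the integers in the superattracting basins

The nonzero integers which are periodic points of the entire function `f₀` are superattracting periodic
points. For `y = 0, 1, 2, ...` let `P y` be the (finite) set of those which are met by the orbits of the
integers of `[-y, y]`, and let the level `k` over `P y` be the set of the integers `n ≠ 0` whose orbit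
meets `P y` for the first time at time `k`. The sum of `1 / |n|` over the level `k` tends to a limit `L y`
as `k → ∞`; the limits `L y` increase with `y`. If `w₁` and `w₂` are the densities of the positive and of
the negative integers in wandering domains, then `L y` tends to `log (4 / 3) (1 - (w₁ + w₂) / 2)`, with an
error of at most `K / y ^ c` for some `c > 0`. Hence no integer is in a wandering domain of `f₀` iff `L y`
tends to `log (4 / 3)`. The part of the level `k` with exactly `o` odd terms before time `k` has the mass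
`L y binom (k, o) / 2 ^ k`, up to an error which is small in total variation.

The proof uses the theorem `Pool.Agent.R344.LS.div_main` of the starting library (helper344) on the level sums
of the `3x+1` map, the theorem `Pool.Agent.TH930.GH.moller_power` on the integers whose trajectories avoid
`[-y, y]`, and the theorem of Letherman, Schleicher and Wood in the form
`Pool.Agent.H723R2.LSW.wandering_iff` of the starting library.
-/

set_option autoImplicit false

open Filter Topology

namespace Pool.Agent.Results.MP_071ec9_an.MassOfBasins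

open Pool.Agent.H384R2.Fatou

/-- The entire function of Letherman, Schleicher and Wood. -/
noncomputable def f₀ (z : ℂ) : ℂ :=
  z / 2 + (z + 1 / 2) * ((1 - Complex.cos (Real.pi * z)) / 2) +
    1 / Real.pi * (1 / 2 - Complex.cos (Real.pi * z)) * Complex.sin (Real.pi * z)

/-- The integers whose Fatou component is a wandering domain of `f₀`. -/
def Wandering : Set ℤ := {n | IsWanderingDomain f₀ (FatouComponent f₀ n)}

/-- The nonzero integers which are periodic points of `f₀` and are met by the orbit of an integer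
of `[-y, y]`. -/
def cyclePoints (y : ℕ) : Set ℤ :=
  {x : ℤ | x ≠ 0 ∧ (∃ j : ℕ, 1 ≤ j ∧ f₀^[j] (x : ℂ) = x) ∧
    ∃ m : ℤ, |m| ≤ y ∧ ∃ k : ℕ, f₀^[k] (m : ℂ) = x}

/-- The level `k` over `Z`: the integers `n ≠ 0` whose orbit under `f₀` meets `Z` for the first time at
time `k`. -/
def level (Z : Set ℤ) (k : ℕ) : Set ℤ :=
  {n : ℤ | n ≠ 0 ∧ (∃ z ∈ Z, f₀^[k] (n : ℂ) = z) ∧ ∀ i < k, ∀ z ∈ Z, f₀^[i] (n : ℂ) ≠ z}

/-- The number of the odd integers among the first `k` terms `n, f₀ n, ..., f₀ ^ (k - 1) n` of the orbit. -/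
noncomputable def odds (k : ℕ) (n : ℤ) : ℕ := {i : ℕ | i < k ∧ ∃ m : ℤ, Odd m ∧ f₀^[i] (n : ℂ) = m}.ncard

/-- The sum of `1 / |n|` over the `n` in `A`. -/
noncomputable def mass (A : Set ℤ) : ℝ := ∑' n : A, (1 : ℝ) / |((n : ℤ) : ℝ)|

/-- The integers `s n`, `n = 1, 2, 3, ...`, have the property `S` with natural density `w`. -/
def HasDensity (s : ℤ) (S : Set ℤ) (w : ℝ) : Prop :=
  Tendsto (fun N : ℕ => ({n : ℕ | 1 ≤ n ∧ n ≤ N ∧ s * (n : ℤ) ∈ S}.ncard : ℝ) / N) atTop (𝓝 w)

open Pool.Agent.H723R2 in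
theorem iter_eq (n m : ℤ) (k : ℕ) : f₀^[k] (n : ℂ) = m ↔ (Pool.Agent.H499R2.ND.Td 1)^[k] n = m := by
  have h1 : f₀^[k] (n : ℂ) = ((LSW.T^[k] n : ℤ) : ℂ) := LSW.f₀_iter n k
  have h2 : LSW.T = Pool.Agent.H499R2.ND.Td 1 := rfl
  rw [h1, h2]
  exact_mod_cast Iff.rfl

theorem wandering_iff (n : ℤ) : n ∈ Wandering ↔ Pool.Agent.R344.LS.Dv n := by
  have h0 : n ∈ Wandering ↔ Pool.Agent.H723R2.LSW.Wild n := Pool.Agent.H723R2.LSW.wandering_iff n
  have h2 : Pool.Agent.H723R2.LSW.T = Pool.Agent.H499R2.ND.Td 1 := rfl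
  rw [h0]
  constructor
  · intro h
    have h1 := Pool.Agent.H723R2.LSW.wild_tendsto h
    rw [h2] at h1
    unfold Pool.Agent.R344.LS.Dv
    rw [tendsto_atTop]
    intro B
    filter_upwards [(tendsto_atTop.1 h1) (B : ℝ)] with k hk
    exact_mod_cast hk
  · intro h
    by_contra hcon
    obtain ⟨k, p, a, hp, ha, hk⟩ := Pool.Agent.H723R2.LSW.tame_hits hcon
    rw [h2] at ha hk
    have hper : ∀ j : ℕ, (Pool.Agent.H499R2.ND.Td 1)^[p * j + k] n = a := by
      intro j
      rw [Function.iterate_add_apply, hk]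
      induction j with
      | zero => rfl
      | succ j ih => rw [Nat.mul_succ, Function.iterate_add_apply, ha, ih]
    unfold Pool.Agent.R344.LS.Dv at h
    rw [tendsto_atTop] at h
    obtain ⟨N, hN⟩ := eventually_atTop.1 (h (|a| + 1))
    have h4 := hN (p * N + k) (by nlinarith)
    rw [hper] at h4
    omega

theorem cyclePoints_eq (y : ℕ) : cyclePoints y = Pool.Agent.R344.LS.Zy y := by
  ext x
  simp only [cyclePoints, Pool.Agent.R344.LS.Zy, Pool.Agent.R344.LS.Per, Set.mem_ofPred_eq, iter_eq]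

theorem level_eq (y k : ℕ) : level (cyclePoints y) k =
    Pool.Agent.R344.LS.LZ 1 (Pool.Agent.R344.LS.Zy_fin y).toFinset k := by
  rw [cyclePoints_eq]
  ext x
  simp only [level, Pool.Agent.R344.LS.LZ, Pool.Agent.R344.LS.FH, Set.mem_ofPred_eq, iter_eq,
    Set.Finite.mem_toFinset, ne_eq]
  constructor
  · rintro ⟨h1, ⟨z, hz, h2⟩, h3⟩
    exact ⟨h1, h2 ▸ hz, fun i hi h4 => h3 i hi _ h4 rfl⟩
  · rintro ⟨h1, h2, h3⟩
    exact ⟨h1, ⟨_, h2, rfl⟩, fun i hi z hz h4 => h3 i hi (h4 ▸ hz)⟩

theorem odds_eq (k : ℕ) (n : ℤ) : (odds k n : ℤ) = Pool.Agent.H499R2.LT.od 1 k n := by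
  rw [Pool.Agent.R344.LS.od_card]
  unfold odds
  rw [← Set.ncard_coe_finset]
  congr 2
  ext i
  simp only [iter_eq, Set.mem_ofPred_eq, Finset.coe_filter, Finset.mem_range]
  constructor
  · rintro ⟨h1, m, h2, h3⟩
    refine ⟨h1, ?_⟩
    rw [h3]
    exact Int.odd_iff.1 h2
  · rintro ⟨h1, h2⟩
    exact ⟨h1, _, Int.odd_iff.2 h2, rfl⟩

/-- There are densities `w₁`, `w₂` of the positive and of the negative integers in wandering domains of
`f₀`, equal to `0` only if there are no such integers, and a nondecreasing `L` such that: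
* for every `y` the set `cyclePoints y` is finite, the masses of the levels over it are finite and tend
  to `L y`, and the part of the level `k` with `o` odd terms has the mass `L y binom (k, o) / 2 ^ k` up
  to an error which tends to zero when summed over `o`;
* with a number `c > 0` which is larger than `1 - h (log 2 / log 3) / log 2`, `h` the binary entropy
  function (natural logarithms), one has `0 ≤ log (4/3) (1 - (w₁ + w₂) / 2) - L y ≤ K / y ^ c`, `y ≥ 1`;
* for `y ≤ y'` one has `L y = L y'` only if `cyclePoints y = cyclePoints y'`;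
* no integer is in a wandering domain of `f₀` iff `L y → log (4/3)` as `y → ∞`. -/
theorem result : ∃ (w₁ w₂ : ℝ), 0 ≤ w₁ ∧ 0 ≤ w₂ ∧ HasDensity 1 Wandering w₁ ∧ HasDensity (-1) Wandering w₂ ∧
    (w₁ = 0 ↔ ∀ n : ℤ, 0 < n → n ∉ Wandering) ∧ (w₂ = 0 ↔ ∀ n : ℤ, n < 0 → n ∉ Wandering) ∧
    ∃ L : ℕ → ℝ, Monotone L ∧
      (∀ y : ℕ, (cyclePoints y).Finite ∧
        (∀ k : ℕ, Summable (fun n : level (cyclePoints y) k => (1 : ℝ) / |((n : ℤ) : ℝ)|)) ∧
        Tendsto (fun k : ℕ => mass (level (cyclePoints y) k)) atTop (𝓝 (L y)) ∧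
        Tendsto (fun k : ℕ => ∑ o ∈ Finset.range (k + 1),
          |mass {n : ℤ | n ∈ level (cyclePoints y) k ∧ odds k n = o} -
            L y * ((k.choose o : ℝ) / 2 ^ k)|) atTop (𝓝 0)) ∧
      (∃ c : ℝ, 0 < c ∧ 1 - Real.binEntropy (Real.log 2 / Real.log 3) / Real.log 2 < c ∧
        ∃ K : ℝ, 0 < K ∧ ∀ y : ℕ, 1 ≤ y → 0 ≤ Real.log (4 / 3) * (1 - (w₁ + w₂) / 2) - L y ∧
          Real.log (4 / 3) * (1 - (w₁ + w₂) / 2) - L y ≤ K / (y : ℝ) ^ c) ∧
      (∀ y y' : ℕ, y ≤ y' → (L y = L y' ↔ cyclePoints y = cyclePoints y')) ∧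
      ((∀ n : ℤ, ¬ IsWanderingDomain f₀ (FatouComponent f₀ n)) ↔
        Tendsto L atTop (𝓝 (Real.log (4 / 3)))) := by
  classical
  obtain ⟨w₁, w₂, h1, h2, h3, h4, h5, h6, L, h7, h8, h9, h10⟩ := Pool.Agent.R344.LS.div_main
  obtain ⟨e, L', g1, g2, g3, g4⟩ := Pool.Agent.R344.RL.fin_main (d := 1) odd_one (by omega)
  have hLL : ∀ y, L' y = L y := fun y => tendsto_nhds_unique (g2 y).2 (h8 y).2.1
  have hW : {x : ℤ | Pool.Agent.R344.LS.Dv x} = Wandering := by
    ext x
    exact (wandering_iff x).symm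
  have hd : ∀ (s : ℤ) (w : ℝ), Pool.Agent.H499R2.ND.HD s {x : ℤ | Pool.Agent.R344.LS.Dv x} w →
      HasDensity s Wandering w := by
    intro s w h
    have := Pool.Agent.H499R2.LT.dn_side h
    rw [hW] at this
    exact this
  obtain ⟨c, hc, C, hC, hb⟩ := Pool.Agent.N219.MB.avoid
  refine ⟨w₁, w₂, h1, h2, hd 1 w₁ h3, hd (-1) w₂ h4, ?_, ?_, L, h7, fun y => ?_,
    ⟨c, Pool.Agent.N219.MB.expo_pos.trans hc, hc, Real.log (4 / 3) * C,
      mul_pos Pool.Agent.R344.LS.log43_pos hC,
      fun y hy => Pool.Agent.N219.MB.gap hb h3 h4 hy (h8 y).2.1⟩, fun y y' hy => ?_, ?_⟩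
  · rw [h5]
    exact forall₂_congr fun n _ => not_congr (wandering_iff n).symm
  · rw [h6]
    exact forall₂_congr fun n _ => not_congr (wandering_iff n).symm
  · obtain ⟨a1, a2, a3⟩ := h8 y
    refine ⟨?_, ?_, ?_, ?_⟩
    · rw [cyclePoints_eq]
      exact Pool.Agent.R344.LS.Zy_fin y
    · intro k
      rw [level_eq]
      exact a1 k
    · simp only [level_eq]
      exact a2
    · refine a3.congr fun k => Finset.sum_congr rfl fun o _ => ?_
      unfold mass
      have e1 : {n : ℤ | n ∈ level (cyclePoints y) k ∧ odds k n = o} =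
          {x : ℤ | x ≠ 0 ∧ (Pool.Agent.R344.LS.FH 1 (Pool.Agent.R344.LS.Zy_fin y).toFinset k x ∧
            Pool.Agent.H499R2.LT.od 1 k x = o)} := by
        ext x
        rw [Set.mem_ofPred_eq, Set.mem_ofPred_eq, level_eq, ← odds_eq, Nat.cast_inj]
        unfold Pool.Agent.R344.LS.LZ
        rw [Set.mem_ofPred_eq, and_assoc]
      rw [e1]
  · rw [← hLL, ← hLL, g4 y y' hy, cyclePoints_eq, cyclePoints_eq]
    exact Iff.rfl
  · rw [← h10]
    exact forall_congr' fun n => not_congr (wandering_iff n)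

end Pool.Agent.Results.MP_071ec9_an.MassOfBasins
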