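import Pool.Agent.N407.OU.U
import Pool.Agent.Results.MP_071ec9_an.OrbitsBelowEntropy

/-!
# Orbits of `f₀` in wandering domains keep away from almost all orbits of Euler's function

Let `f₀` be the entire function of Letherman, Schleicher and Wood which interpolates the `3x+1` function. Let `φ_k` be the
`k`-th iterate of Euler's function, `φ_0(m) = m`. Let `f` be a positive multiplicative function of at most polynomial growth such
that `f p ≤ M p` for the large primes `p`, with different values at different large primes; for example the identity, Euler's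
function or the sum of the divisors. Let `G` be a function with steps bounded below by a positive constant and growth at most
`v ^ d`, for example `G v = α v ^ d`. Let `κ ≥ 0` and `d H + κ ≤ 1`, `H = 0.94995...` the entropy exponent of the `3x+1`
function.

We prove: there is `K(m)` tending to infinity and for every `ε > 0` there is `N₀`, both independent of the orbit, such that for
ALL integers `n` in wandering domains of `f₀` (if there are any) and all `N ≥ N₀`, for all `m ≤ N` but `ε N`, for all
`k ≤ K(m)`, no member `z` of the forward orbit of `n` satisfies `||z| - G v| ≤ v ^ κ`, `v = f(φ_k(m))`. So an integer whose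
orbit comes close to one of the first `K(m)` members of the orbit of `m` under Euler's function for more than `ε N` of the
`m ≤ N`, for a single `N ≥ N₀`, is in the basin of attraction of a superattracting cycle.

The iterates of Euler's function are not multiplicative, their values form a thin set and are taken with very large
multiplicities, and so this does not follow from the number of the points of the orbit in intervals (`OrbitsBelowEntropy`).
-/

set_option autoImplicit false

namespace Pool.Agent.Results.MP_071ec9_an.TotientOrbits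

open Filter
open Pool.Agent.H384R2.Fatou
open Pool.Agent.N733.TG (LM Expanding lm_totient lm_sigma expanding_pow)
open Pool.Agent.N760.IT (orb lm_id)

/-- The entire function of Letherman, Schleicher and Wood; `f₀ n = T n` for every integer `n`, where
`T` is the `3x+1` function. -/
noncomputable def f₀ (z : ℂ) : ℂ :=
  z / 2 + (z + 1 / 2) * ((1 - Complex.cos (Real.pi * z)) / 2) +
    1 / Real.pi * (1 / 2 - Complex.cos (Real.pi * z)) * Complex.sin (Real.pi * z)

/-- The integers whose Fatou component is a wandering domain of `f₀`. -/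
def WanderingIntegers : Set ℤ := {n | IsWanderingDomain f₀ (FatouComponent f₀ n)}

/-- The entropy exponent: the binary entropy, in bits, of `log 2 / log 3`; `H = 0.94995...`. -/
noncomputable def H : ℝ := Real.binEntropy (Real.log 2 / Real.log 3) / Real.log 2

/-- **Orbits in wandering domains and almost all orbits of Euler's function.** Let `f` be multiplicative and positive, of at
most polynomial growth, with `f p ≤ M p` at the large primes, and injective there. Let `G` have steps `≥ a > 0` and growth at
most `v ^ d`. Let `κ ≥ 0` and `d H + κ ≤ 1`. There is `K(m)` tending to infinity and for every `ε > 0` there is `N₀` such that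
for ALL integers `n` in wandering domains of `f₀` and all `N ≥ N₀`, for all `m ≤ N` but `ε N`, for all `k ≤ K(m)`, with
`v = f(φ_k(m))` (`orb f k m`), no `z` in the forward orbit of `n` satisfies `||z| - G v| ≤ v ^ κ`. The identity, Euler's
function and the sum of the divisors are examples of such functions `f`, and `α v ^ d` with `α > 0`, `d ≥ 1` is an example of
`G`. -/
theorem result :
    (∀ f : ℕ → ℕ, LM f → ∀ (G : ℕ → ℝ) (d : ℝ), Expanding G d → ∀ κ : ℝ, 0 ≤ κ → d * H + κ ≤ 1 →
      ∃ K : ℕ → ℕ, Tendsto K atTop atTop ∧ ∀ ε : ℝ, 0 < ε → ∃ N₀ : ℕ, ∀ n ∈ WanderingIntegers, ∀ N : ℕ, N₀ ≤ N →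
        ({m : ℕ | 1 ≤ m ∧ m ≤ N ∧ ∃ k ≤ K m, ∃ (i : ℕ) (z : ℤ), f₀^[i] (n : ℂ) = z ∧
          |(|(z : ℝ)|) - G (orb f k m)| ≤ (orb f k m : ℝ) ^ κ}.ncard : ℝ) ≤ ε * N) ∧
    (LM (fun m => m) ∧ LM Nat.totient ∧ LM (fun m => ∑ d ∈ m.divisors, d)) ∧
    ∀ α d : ℝ, 0 < α → 1 ≤ d → Expanding (fun v => α * (v : ℝ) ^ d) d := by
  refine ⟨fun f hf G d hG κ hκ h1 => ?_, ⟨lm_id, lm_totient, lm_sigma⟩, fun α d hα hd => expanding_pow hα hd⟩
  obtain ⟨η, A, hη, hA, h⟩ := OrbitsBelowEntropy.result
  have hd := hG.one_le
  obtain ⟨s, hs⟩ : ∃ s, s = max η 0 := ⟨_, rfl⟩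
  have hs0 : 0 ≤ s := by rw [hs]; exact le_max_right _ _
  have hH : 0 < H := by
    have e1 : 0 < Real.log 2 := Real.log_pos one_lt_two
    have e2 : Real.log 2 < Real.log 3 := Real.log_lt_log (by norm_num) (by norm_num)
    refine div_pos (Real.binEntropy_pos ?_ ?_) e1
    · exact div_pos e1 (e1.trans e2)
    · rw [div_lt_one (e1.trans e2)]
      exact e2
  have hsH : s < H := by rw [hs]; exact max_lt hη hH
  have h2 : d * s + κ < 1 := by
    have : d * s < d * H := mul_lt_mul_of_pos_left hsH (by linarith)
    linarith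
  obtain ⟨K, hK, hK2⟩ := Pool.Agent.N407.OU.orbit_unif (T := ℤ) hf hG hs0 hκ h2 A
  refine ⟨K, hK, fun ε hε => ?_⟩
  obtain ⟨N₀, hN₀⟩ := hK2 ε hε
  refine ⟨N₀, fun n hn N hN => ?_⟩
  have h3 := hN₀ {z : ℤ | ∃ k : ℕ, f₀^[k] (n : ℂ) = z} (fun z : ℤ => |(z : ℝ)|) (fun X hX => by
    have hfin : {t : ℤ | t ∈ {z : ℤ | ∃ k : ℕ, f₀^[k] (n : ℂ) = z} ∧ |(t : ℝ)| ≤ X}.Finite := by
      apply (Set.finite_Icc (-⌊X⌋) ⌊X⌋).subset
      rintro x ⟨_, hx⟩
      rw [Set.mem_Icc]
      have h1 := abs_le.1 hx
      constructor
      · have : -x ≤ ⌊X⌋ := Int.le_floor.2 (by push_cast; linarith)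
        linarith
      · exact Int.le_floor.2 h1.2
    refine ⟨hfin, ?_⟩
    have e1 := h n hn 0 X hX
    have e2 : {z : ℤ | |(z : ℝ) - 0| ≤ X ∧ ∃ k : ℕ, OrbitsBelowEntropy.f₀^[k] (n : ℂ) = z} =
        {t : ℤ | t ∈ {z : ℤ | ∃ k : ℕ, f₀^[k] (n : ℂ) = z} ∧ |(t : ℝ)| ≤ X} := by
      ext z
      simp only [Set.mem_ofPred_eq, sub_zero]
      exact and_comm
    rw [e2] at e1
    refine e1.trans (mul_le_mul_of_nonneg_left ?_ hA.le)
    exact Real.rpow_le_rpow_of_exponent_le hX (by rw [hs]; exact le_max_left _ _)) N hN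
  refine le_trans (le_of_eq ?_) h3
  congr 2
  ext m
  simp only [Set.mem_ofPred_eq]
  constructor
  · rintro ⟨g1, g2, k, g3, i, z, g4, g5⟩
    exact ⟨g1, g2, k, g3, z, ⟨i, g4⟩, g5⟩
  · rintro ⟨g1, g2, k, g3, z, ⟨i, g4⟩, g5⟩
    exact ⟨g1, g2, k, g3, i, z, g4, g5⟩

end Pool.Agent.Results.MP_071ec9_an.TotientOrbits
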