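import Mathlib
import Pool.Agent.Y282.WD.Deg
import Pool.Agent.Y282.WD.Full
import Pool.Agent.Y151.WD.Tail
import Pool.Agent.Y514.WD.Sch
import Pool.Agent.Y804.WD.Loop
import Pool.Agent.Y811.WD.Back
import Pool.Agent.Y888.WD.Near
import Pool.Agent.Y319.WD.Har
import Pool.Agent.Y98.WD.Inv
import Pool.Agent.H723R2.LSWWander
import Pool.Agent.N905.EX.Pow

set_option autoImplicit false

/-! The diameters of the components of the forward orbit of a wandering domain of the entire function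
`f₀` which contains an integer: exponent of convergence at most `0.94`, with a uniform bound. -/

open Filter Topology Metric Set

namespace Pool.Agent.Results.MP_071ec9_an.WanderingOrbitDiameters

open Pool.Agent.H384R2.Fatou

/-- The entire function of Letherman, Schleicher and Wood; `f₀ n = T n` for every integer `n`. -/
noncomputable def f₀ (z : ℂ) : ℂ :=
  z / 2 + (z + 1 / 2) * ((1 - Complex.cos (Real.pi * z)) / 2) +
    1 / Real.pi * (1 / 2 - Complex.cos (Real.pi * z)) * Complex.sin (Real.pi * z)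

/-- The Fatou component of `f₀` which contains `f₀^k n`. -/
def U (n : ℤ) (k : ℕ) : Set ℂ := FatouComponent f₀ (f₀^[k] (n : ℂ))

/-- `n` lies in a wandering domain of `f₀`. -/
def Wandering (n : ℤ) : Prop := IsWanderingDomain f₀ (FatouComponent f₀ (n : ℂ))

theorem f_iter (k : ℕ) (x : ℤ) : f₀^[k] (x : ℂ) = (((Pool.Agent.TH930.EBQ.T 1)^[k] x : ℤ) : ℂ) :=
  Pool.Agent.H723R2.LSW.f₀_iter x k

/-- the component of `f₀^k n` is contained in a disc of radius `6 / |f₀^k n|` -/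
theorem small : ∃ C : ℝ, 1 ≤ C ∧ ∀ n : ℤ, Wandering n →
    (∀ i j : ℕ, (Pool.Agent.TH930.EBQ.T 1)^[i] n = (Pool.Agent.TH930.EBQ.T 1)^[j] n → i = j) ∧
    ∀ k : ℕ, (∀ j : ℕ, k ≤ j → C ≤ ‖f₀^[j] (n : ℂ)‖) →
      U n k ⊆ closedBall (f₀^[k] (n : ℂ)) (6 / ‖f₀^[k] (n : ℂ)‖) := by
  obtain ⟨C, hC1, hC⟩ := Pool.Agent.Y282.WD.shape Pool.Agent.Y888.WD.t_NEAR
    Pool.Agent.Y888.WD.t_LOW Pool.Agent.Y151.WD.t_TAIL Pool.Agent.Y514.WD.sch
    Pool.Agent.Y319.WD.t_HAR Pool.Agent.Y804.WD.loop Pool.Agent.Y811.WD.t_BACK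
    Pool.Agent.Y98.WD.t_INV
  have hT := Pool.Agent.Y151.WD.t_TAIL
  refine ⟨C, hC1, fun n hn => ?_⟩
  have hw : Pool.Agent.H723R2.LSW.Wild n := (Pool.Agent.H723R2.LSW.wandering_iff n).1 hn
  refine ⟨fun i j hij => hw i j hij, fun k hk => ?_⟩
  set x : ℤ := (Pool.Agent.H723R2.LSW.T)^[k] n with hx
  have hfx : ∀ j : ℕ, f₀^[j] (n : ℂ) = (((Pool.Agent.H723R2.LSW.T)^[j] n : ℤ) : ℂ) := fun j =>
    Pool.Agent.H723R2.LSW.f₀_iter n j
  have hnorm : ∀ j : ℕ, ‖f₀^[j] (n : ℂ)‖ = |(((Pool.Agent.H723R2.LSW.T)^[j] n : ℤ) : ℝ)| := by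
    intro j
    rw [hfx, Complex.norm_intCast]
  have hj' : ∀ j : ℕ, C ≤ |(((Pool.Agent.H723R2.LSW.T)^[j] x : ℤ) : ℝ)| := by
    intro j
    rw [hx, ← Function.iterate_add_apply, ← hnorm]
    exact hk (j + k) (by omega)
  obtain ⟨-, -, -, h4⟩ := hC x (Pool.Agent.H723R2.LSW.wild_iter hw k)
  have h5 := (h4 C le_rfl hj').2.1
  obtain ⟨hr0, -, hr1, hr2⟩ := hT.2 x
  have hx1 : 1 ≤ |(x : ℝ)| := hC1.trans (by simpa using hj' 0)
  have hbt : Pool.Agent.Y282.WD.bt x = Real.pi ^ 2 / 4 * |(x : ℝ) + 1 / 2| := rfl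
  rw [hbt] at hr1 hr2
  have hU : U n k = FatouComponent f₀ (x : ℂ) := by
    unfold U; rw [hfx]
  rw [hU, hnorm k, hfx k]
  refine Subset.trans h5 (closedBall_subset_closedBall ?_)
  -- the radius
  have hpi : 9 ≤ Real.pi ^ 2 := by nlinarith [Real.pi_gt_three]
  have hx2 : |(x : ℝ)| / 2 ≤ |(x : ℝ) + 1 / 2| := by
    have h := abs_sub_abs_le_abs_sub (x : ℝ) (-(1 / 2))
    rw [abs_neg, sub_neg_eq_add, abs_of_pos (by norm_num : (0 : ℝ) < 1 / 2)] at h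
    linarith
  have hC2 : C / C ^ 2 ≤ 1 := by
    rw [div_le_one (by positivity)]
    nlinarith
  have hx0 : 0 < |(x : ℝ)| := by linarith
  rw [le_div_iff₀ hx0]
  have h6 : 9 / 4 * (|(x : ℝ)| / 2) ≤ Real.pi ^ 2 / 4 * |(x : ℝ) + 1 / 2| := by
    apply mul_le_mul (by linarith) hx2 (by positivity) (by positivity)
  have h7 : 9 / 4 * (|(x : ℝ)| / 2) * Pool.Agent.Y282.WD.rho x ≤ 3 :=
    (mul_le_mul_of_nonneg_right h6 hr0.le).trans hr2
  have h8 : (1 + C / C ^ 2) * Pool.Agent.Y282.WD.rho x ≤ 2 * Pool.Agent.Y282.WD.rho x :=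
    mul_le_mul_of_nonneg_right (by linarith) hr0.le
  have h9 := mul_le_mul_of_nonneg_right h8 hx0.le
  nlinarith

/-- There is `C` with the following properties. Let the integer `n` lie in a wandering domain of `f₀`, let
`U n k` be the component of `f₀^k n`, and let `K` be such that `|f₀^j n| ≥ C` for all `j ≥ K`.
(1) For `0 < ε ≤ 1` at most `A ε^(-0.94)` of the components `U n k`, `k ≥ K`, have diameter at least `ε`.
(2) For `R ≥ 1` every disc of radius `R` meets at most `A R^0.94` of the components `U n k`, `k ≥ K`.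
(3) For every `s > 0.94` the sum of `(diam (U n k))^s` over all `k ≥ K` is at most `A_s M^(0.94 - s)` if
`|f₀^j n| ≥ M ≥ C` for all `j ≥ K`. The constants `A` and `A_s` do not depend on `n`, `K` and `M`. -/
theorem result : ∃ C : ℝ, 1 ≤ C ∧
    (∃ A : ℝ, 0 < A ∧ ∀ n : ℤ, Wandering n → ∀ K : ℕ, (∀ j : ℕ, K ≤ j → C ≤ ‖f₀^[j] (n : ℂ)‖) →
      (∀ ε : ℝ, 0 < ε → ε ≤ 1 →
        {k : ℕ | K ≤ k ∧ ε ≤ diam (U n k)}.Finite ∧
        ({k : ℕ | K ≤ k ∧ ε ≤ diam (U n k)}.ncard : ℝ) ≤ A * ε ^ (-(94 / 100) : ℝ)) ∧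
      ∀ (z : ℂ) (R : ℝ), 1 ≤ R →
        {k : ℕ | K ≤ k ∧ (U n k ∩ closedBall z R).Nonempty}.Finite ∧
        ({k : ℕ | K ≤ k ∧ (U n k ∩ closedBall z R).Nonempty}.ncard : ℝ) ≤ A * R ^ (94 / 100 : ℝ)) ∧
    ∀ s : ℝ, 94 / 100 < s → ∃ A : ℝ, 0 < A ∧ ∀ n : ℤ, Wandering n → ∀ (K : ℕ) (M : ℝ), C ≤ M →
      (∀ j : ℕ, K ≤ j → M ≤ ‖f₀^[j] (n : ℂ)‖) →
      Summable (fun i : ℕ => diam (U n (K + i)) ^ s) ∧
      ∑' i : ℕ, diam (U n (K + i)) ^ s ≤ A * M ^ (94 / 100 - s) := by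
  classical
  obtain ⟨C, hC1, hC⟩ := small
  obtain ⟨A₀, hA₀, hcount⟩ := Pool.Agent.N905.EX.orbit_count
  have hnorm : ∀ (n : ℤ) (j : ℕ),
      ‖f₀^[j] (n : ℂ)‖ = |(((Pool.Agent.TH930.EBQ.T 1)^[j] n : ℤ) : ℝ)| := by
    intro n j
    rw [f_iter, Complex.norm_intCast]
  have hdiam : ∀ n : ℤ, Wandering n → ∀ K : ℕ, (∀ j : ℕ, K ≤ j → C ≤ ‖f₀^[j] (n : ℂ)‖) →
      ∀ k : ℕ, K ≤ k → diam (U n k) ≤ 12 / ‖f₀^[k] (n : ℂ)‖ := by
    intro n hn K hK k hk
    have h1 := (hC n hn).2 k (fun j hj => hK j (hk.trans hj))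
    have h2 : 0 < ‖f₀^[k] (n : ℂ)‖ := by linarith [hK k hk]
    have h3 := diam_mono h1 isBounded_closedBall
    refine h3.trans ((diam_closedBall (by positivity)).trans (le_of_eq ?_))
    ring
  refine ⟨C, hC1, ⟨A₀ * 12 ^ (94 / 100 : ℝ), by positivity, fun n hn K hK => ⟨?_, ?_⟩⟩, ?_⟩
  · intro ε hε hε1
    apply Pool.Agent.N905.EX.finite_of_card_le
    intro F hF
    have h1 := hcount n (hC n hn).1 0 (12 / ε) (by rw [le_div_iff₀ hε]; linarith) F (by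
      intro k hk
      obtain ⟨hk1, hk2⟩ := hF k hk
      have h2 := hk2.trans (hdiam n hn K hK k hk1)
      have h3 : 0 < ‖f₀^[k] (n : ℂ)‖ := by linarith [hK k hk1]
      rw [sub_zero, ← hnorm, le_div_iff₀ hε]
      rw [le_div_iff₀ h3] at h2
      linarith)
    refine h1.trans (le_of_eq ?_)
    rw [Real.div_rpow (by norm_num) hε.le, Real.rpow_neg hε.le]
    ring
  · intro z R hR
    apply Pool.Agent.N905.EX.finite_of_card_le
    intro F hF
    have h1 := hcount n (hC n hn).1 z.re (12 * R) (by linarith) F (by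
      intro k hk
      obtain ⟨hk1, w, hw1, hw2⟩ := hF k hk
      have h2 := (hC n hn).2 k (fun j hj => hK j (hk1.trans hj)) hw1
      have h3 : 1 ≤ ‖f₀^[k] (n : ℂ)‖ := hC1.trans (hK k hk1)
      have h4 : 6 / ‖f₀^[k] (n : ℂ)‖ ≤ 6 := by
        rw [div_le_iff₀ (by linarith)]; linarith
      rw [mem_closedBall, dist_eq_norm] at h2 hw2
      have h5 : ‖f₀^[k] (n : ℂ) - z‖ ≤ 6 + R := by
        have e : f₀^[k] (n : ℂ) - z = (w - z) - (w - f₀^[k] (n : ℂ)) := by ring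
        rw [e]
        exact (norm_sub_le _ _).trans (by linarith)
      have h6 := (Complex.abs_re_le_norm (f₀^[k] (n : ℂ) - z)).trans h5
      rw [Complex.sub_re, f_iter, Complex.intCast_re] at h6
      linarith)
    refine h1.trans (le_of_eq ?_)
    rw [Real.mul_rpow (by norm_num) (by linarith)]
    ring
  · intro s hs
    obtain ⟨A₁, hA₁, hpow⟩ := Pool.Agent.N905.EX.orbit_pow hs
    have hs0 : 0 < s := by linarith
    refine ⟨12 ^ s * A₁, by positivity, fun n hn K M hM hK => ?_⟩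
    have hKC : ∀ j : ℕ, K ≤ j → C ≤ ‖f₀^[j] (n : ℂ)‖ := fun j hj => hM.trans (hK j hj)
    have hterm : ∀ k : ℕ, K ≤ k →
        diam (U n k) ^ s ≤ 12 ^ s * |(((Pool.Agent.TH930.EBQ.T 1)^[k] n : ℤ) : ℝ)| ^ (-s) := by
      intro k hk
      have h1 := hdiam n hn K hKC k hk
      have h2 : 0 < ‖f₀^[k] (n : ℂ)‖ := by linarith [hKC k hk]
      have h3 := Real.rpow_le_rpow diam_nonneg h1 hs0.le
      rw [Real.div_rpow (by norm_num) h2.le, div_eq_mul_inv, ← Real.rpow_neg h2.le, hnorm] at h3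
      exact h3
    have hsum : ∀ u : Finset ℕ, ∑ i ∈ u, diam (U n (K + i)) ^ s ≤ 12 ^ s * A₁ * M ^ (94 / 100 - s) := by
      intro u
      have h1 := hpow n (hC n hn).1 M (hC1.trans hM) (u.image fun i => K + i) (by
        intro k hk
        obtain ⟨i, -, rfl⟩ := Finset.mem_image.1 hk
        rw [← hnorm]
        exact hK _ (by omega))
      rw [Finset.sum_image (fun i _ j _ hij => by simpa using hij)] at h1
      calc ∑ i ∈ u, diam (U n (K + i)) ^ s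
          ≤ ∑ i ∈ u, 12 ^ s * |(((Pool.Agent.TH930.EBQ.T 1)^[K + i] n : ℤ) : ℝ)| ^ (-s) :=
            Finset.sum_le_sum fun i _ => hterm (K + i) (by omega)
        _ = 12 ^ s * ∑ i ∈ u, |(((Pool.Agent.TH930.EBQ.T 1)^[K + i] n : ℤ) : ℝ)| ^ (-s) := by
            rw [Finset.mul_sum]
        _ ≤ 12 ^ s * (A₁ * M ^ (94 / 100 - s)) := mul_le_mul_of_nonneg_left h1 (by positivity)
        _ = _ := by ring
    have hS : Summable (fun i : ℕ => diam (U n (K + i)) ^ s) :=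
      summable_of_sum_le (fun i => Real.rpow_nonneg diam_nonneg _) hsum
    exact ⟨hS, hS.tsum_le_of_sum_le hsum⟩

end Pool.Agent.Results.MP_071ec9_an.WanderingOrbitDiameters
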